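import Pool.Agent.LibHelper39.Spec

/-!
The core theorem over an arbitrary field.
-/

set_option linter.unusedSectionVars false
set_option linter.unusedSimpArgs false
set_option linter.style.haveILetI false

namespace Pool.Agent.LibHelper39

open MvPolynomial Finset

universe u

section MapLemmas

variable {σ : Type*} [Fintype σ] [DecidableEq σ]
variable {A B : Type*} [CommRing A] [CommRing B]

lemma map_sh (φ : A →+* B) (j : σ) (v : σ → A) (g : MvPolynomial σ A) :
    map φ (sh j v g) = sh j (fun i => φ (v i)) (map φ g) := by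
  have h : (map φ).comp (sh j v).toRingHom =
      (sh j (fun i => φ (v i))).toRingHom.comp (map φ) := by
    apply MvPolynomial.ringHom_ext
    · intro r
      simp [sh]
    · intro i
      by_cases hi : i = j
      · subst hi; simp [sh]
      · simp [sh, hi]
  have := congrArg (fun f => f g) h
  simpa using this

lemma map_mem_W (φ : A →+* B) {j : σ} {s : ℕ} {g : MvPolynomial σ A} (hg : g ∈ W A j s) :
    map φ g ∈ W B j s := by
  intro γ hγ
  rw [coeff_map, hg γ hγ, map_zero]

lemma map_mem_IP (φ : A →+* B) {j : σ} {v : σ → A} {s : ℕ} {g : MvPolynomial σ A}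
    (hg : g ∈ (IP j v) ^ s) : map φ g ∈ (IP j (fun i => φ (v i))) ^ s := by
  rw [mem_IP_pow] at hg ⊢
  rw [← map_sh]
  exact map_mem_W φ hg

lemma of_map_mem_IP {φ : A →+* B} (hφ : Function.Injective φ) {j : σ} {v : σ → A} {s : ℕ}
    {g : MvPolynomial σ A} (hg : map φ g ∈ (IP j (fun i => φ (v i))) ^ s) :
    g ∈ (IP j v) ^ s := by
  rw [mem_IP_pow] at hg ⊢
  rw [← map_sh] at hg
  intro γ hγ
  apply hφ
  rw [map_zero, ← coeff_map]
  exact hg γ hγ

lemma sh_isHomogeneous {j : σ} {v : σ → A} {g : MvPolynomial σ A} {d : ℕ}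
    (hg : g.IsHomogeneous d) : (sh j v g).IsHomogeneous d := by
  have := hg.aeval (fun i => if i = j then X j else X i + C (v i) * X j) (n := 1) (by
    intro i
    by_cases hi : i = j
    · simp only [hi, if_true]; exact isHomogeneous_X _ _
    · simp only [hi, if_false]
      exact (isHomogeneous_X _ _).add (isHomogeneous_C_mul_X _ _))
  rwa [one_mul] at this

lemma isHomogeneous_iff_degree' {F : MvPolynomial σ A} {n : ℕ} :
    F.IsHomogeneous n ↔ ∀ d : σ →₀ ℕ, coeff d F ≠ 0 → d.degree = n := by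
  constructor
  · intro h d hd
    by_contra hne
    exact hd (h.coeff_eq_zero hne)
  · intro h d hd
    have := h d hd
    rwa [Finsupp.degree_eq_weight_one] at this

/-- exponents of degree `d` -/
noncomputable def mons (σ : Type*) [Fintype σ] [DecidableEq σ] (d : ℕ) : Finset (σ →₀ ℕ) :=
  (box σ (d + 1)).filter (fun δ => δ.degree = d)

lemma mem_mons {d : ℕ} {δ : σ →₀ ℕ} : δ ∈ mons σ d ↔ δ.degree = d := by
  unfold mons
  rw [Finset.mem_filter, mem_box (Nat.succ_pos d)]
  constructor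
  · exact fun h => h.2
  · intro h
    refine ⟨fun i => ?_, h⟩
    have : δ i ≤ δ.degree := Finsupp.le_degree i δ
    omega

/-- polynomial with prescribed coefficients on the monomials of degree `d` -/
noncomputable def poly (d : ℕ) (x : mons σ d → A) : MvPolynomial σ A :=
  ∑ δ : mons σ d, monomial δ.1 (x δ)

lemma poly_isHomogeneous (d : ℕ) (x : mons σ d → A) : (poly d x).IsHomogeneous d := by
  unfold poly
  apply IsHomogeneous.sum
  intro δ _
  exact isHomogeneous_monomial _ (mem_mons.mp δ.2)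

lemma coeff_poly (d : ℕ) (x : mons σ d → A) (δ : mons σ d) : coeff δ.1 (poly d x) = x δ := by
  unfold poly
  rw [coeff_sum, Finset.sum_eq_single_of_mem δ (Finset.mem_univ _)]
  · simp
  · intro δ' _ hne
    rw [coeff_monomial, if_neg]
    intro h
    exact hne (Subtype.ext h)

lemma poly_coeff {d : ℕ} {g : MvPolynomial σ A} (hg : g.IsHomogeneous d) :
    poly d (fun δ : mons σ d => coeff δ.1 g) = g := by
  ext γ
  by_cases hγ : γ.degree = d
  · exact coeff_poly d _ ⟨γ, mem_mons.mpr hγ⟩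
  · rw [(poly_isHomogeneous d _).coeff_eq_zero hγ, hg.coeff_eq_zero hγ]

variable {ι : Type*} [Fintype ι] [DecidableEq ι]

/-- matrix of the vanishing conditions -/
noncomputable def mat (j : ι → σ) (v : ι → σ → A) (s : ι → ℕ) (d : ℕ) :
    Matrix (ι × mons σ d) (mons σ d) A :=
  fun r δ => if pd (j r.1) r.2.1 < s r.1 then
    coeff r.2.1 (sh (j r.1) (v r.1) (monomial δ.1 1)) else 0

lemma sh_poly (j : σ) (v : σ → A) (d : ℕ) (x : mons σ d → A) (γ : σ →₀ ℕ) :
    coeff γ (sh j v (poly d x)) = ∑ δ : mons σ d, coeff γ (sh j v (monomial δ.1 1)) * x δ := by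
  unfold poly
  rw [map_sum, coeff_sum]
  apply Finset.sum_congr rfl
  intro δ _
  have : (monomial δ.1 (x δ) : MvPolynomial σ A) = C (x δ) * monomial δ.1 1 := by
    rw [C_mul_monomial, mul_one]
  rw [this, map_mul]
  have h2 : sh j v (C (x δ)) = C (x δ) := by simp [sh]
  rw [h2, coeff_C_mul, mul_comm]

lemma mat_mulVec (j : ι → σ) (v : ι → σ → A) (s : ι → ℕ) (d : ℕ) (x : mons σ d → A) :
    (∀ i, poly d x ∈ (IP (j i) (v i)) ^ (s i)) ↔ (mat j v s d).mulVec x = 0 := by
  constructor
  · intro h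
    ext r
    rw [Matrix.mulVec, dotProduct]
    simp only [mat, Pi.zero_apply]
    by_cases hr : pd (j r.1) r.2.1 < s r.1
    · simp only [hr, if_true]
      rw [← sh_poly]
      have := h r.1
      rw [mem_IP_pow] at this
      exact this _ hr
    · simp [hr]
  · intro h i
    rw [mem_IP_pow]
    intro γ hγ
    by_cases hd : γ.degree = d
    · have := congrFun h (i, ⟨γ, mem_mons.mpr hd⟩)
      rw [Matrix.mulVec, dotProduct] at this
      simp only [mat, Pi.zero_apply, hγ, if_true] at this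
      rw [sh_poly]
      exact this
    · exact (sh_isHomogeneous (poly_isHomogeneous d x)).coeff_eq_zero hd

lemma mat_map (φ : A →+* B) (j : ι → σ) (v : ι → σ → A) (s : ι → ℕ) (d : ℕ) :
    (mat j v s d).map φ = mat j (fun i k => φ (v i k)) s d := by
  ext r δ
  simp only [Matrix.map_apply, mat]
  split_ifs with h
  · rw [← coeff_map, map_sh, map_monomial, map_one]
  · exact map_zero φ

end MapLemmas

section Field

variable {σ : Type*} [Fintype σ] [DecidableEq σ]

lemma le_degree_of_mem {K : Type*} [Field K] {j : σ} {v : σ → K} {t : ℕ} {f : MvPolynomial σ K}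
    (hf0 : f ≠ 0) {D : ℕ} (hfD : f.IsHomogeneous D) (hf : f ∈ (IP j v) ^ t) : t ≤ D := by
  rw [mem_IP_pow] at hf
  have h0 : sh j v f ≠ 0 := by
    intro h
    apply hf0
    apply sh_injective j v
    rw [h, map_zero]
  obtain ⟨γ, hγ⟩ := ne_zero_iff.mp h0
  have h1 := isHomogeneous_iff_degree'.mp (sh_isHomogeneous hfD) γ hγ
  have h2 : t ≤ pd j γ := by
    by_contra hlt
    push Not at hlt
    exact hγ (hf γ hlt)
  have h3 : pd j γ ≤ γ.degree := by
    unfold pd
    rw [Finsupp.degree_eq_sum]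
    exact Finset.sum_le_sum_of_subset (Finset.erase_subset _ _)
  omega

/-- **Core theorem** over an arbitrary field. -/
theorem core {K : Type u} [Field K] {ι : Type*} [Finite ι] (j : ι → σ) (v : ι → σ → K) {N : ℕ}
    (hN : Fintype.card σ = N + 1) (hN1 : 1 ≤ N)
    {f : MvPolynomial σ K} (hf0 : f ≠ 0) {D : ℕ} (hfD : f.IsHomogeneous D)
    (c r : ℕ) (hr : 0 < r) (t s : ι → ℕ)
    (hf : ∀ i, f ∈ (IP (j i) (v i)) ^ (t i))
    (hst : ∀ i, s i = 0 ∨ r * (s i + (N - 1)) ≤ c * t i)
    (hex : ∃ i, r * (s i + (N - 1)) ≤ c * t i) :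
    ∃ (d : ℕ) (g : MvPolynomial σ K), g ≠ 0 ∧ g.IsHomogeneous d ∧
      (∀ i, g ∈ (IP (j i) (v i)) ^ (s i)) ∧ r * (d + (N - 1)) ≤ c * D := by
  classical
  haveI : Fintype ι := Fintype.ofFinite ι
  -- the maximal allowed degree
  have hNcD : N - 1 ≤ c * D / r := by
    obtain ⟨i, hi⟩ := hex
    rw [Nat.le_div_iff_mul_le hr]
    have h1 := le_degree_of_mem hf0 hfD (hf i)
    have h2 : c * t i ≤ c * D := Nat.mul_le_mul_left _ h1
    have h3 : r * (N - 1) ≤ r * (s i + (N - 1)) := Nat.mul_le_mul_left _ (by omega)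
    rw [Nat.mul_comm]
    omega
  set d := c * D / r - (N - 1) with hd
  have hdD : r * (d + (N - 1)) ≤ c * D := by
    rw [hd, Nat.sub_add_cancel hNcD]
    exact Nat.mul_div_le _ _
  by_contra hcon
  push Not at hcon
  have hinj : ∀ x : mons σ d → K, (mat j v s d).mulVec x = 0 → x = 0 := by
    intro x hx
    by_contra hx0
    have h1 : poly d x ≠ 0 := by
      intro h
      apply hx0
      ext δ
      rw [← coeff_poly d x δ, h]
      simp
    have h2 := hcon d (poly d x) h1 (poly_isHomogeneous d x) ((mat_mulVec j v s d x).mpr hx)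
    omega
  -- left inverse
  obtain ⟨L, hL⟩ : ∃ L : Matrix (mons σ d) (ι × mons σ d) K, L * mat j v s d = 1 := by
    obtain ⟨g, hg⟩ := LinearMap.exists_leftInverse_of_injective (Matrix.mulVecLin (mat j v s d))
      (by
        rw [LinearMap.ker_eq_bot']
        intro x hx
        exact hinj x hx)
    refine ⟨LinearMap.toMatrix' g, ?_⟩
    have h1 := congrArg LinearMap.toMatrix' hg
    rw [LinearMap.toMatrix'_comp, LinearMap.toMatrix'_id] at h1
    rw [← h1]
    congr 1
    rw [← Matrix.toLin'_apply', LinearMap.toMatrix'_toLin']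
  -- a nonzero coefficient of `f`
  obtain ⟨γ₀, hγ₀⟩ := ne_zero_iff.mp hf0
  -- the finitely generated ring
  set S : Set K := (Set.range fun x : ι × σ => v x.1 x.2) ∪ (f.coeffs : Set K) ∪
    {(coeff γ₀ f)⁻¹} ∪ (Set.range fun x : mons σ d × (ι × mons σ d) => L x.1 x.2) with hS
  have hSfin : S.Finite :=
    (((Set.finite_range _).union f.coeffs.finite_toSet).union (Set.finite_singleton _)).union
      (Set.finite_range _)
  obtain ⟨A, Ω, instΩ, instAC, p, instp, instCh, φ, hSA⟩ := exists_specialization K S hSfin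
  have hA : Function.Injective (algebraMap A K) := Subtype.val_injective
  have hvA : ∀ i k, v i k ∈ A := fun i k => hSA (by
    rw [hS]; exact Or.inl (Or.inl (Or.inl ⟨(i, k), rfl⟩)))
  have hLA : ∀ a b, L a b ∈ A := fun a b => hSA (by
    rw [hS]; exact Or.inr ⟨(a, b), rfl⟩)
  have hinvA : (coeff γ₀ f)⁻¹ ∈ A := hSA (by
    rw [hS]; exact Or.inl (Or.inr rfl))
  obtain ⟨fA, hfA⟩ : ∃ fA : MvPolynomial σ A, map (algebraMap A K) fA = f := by
    have : f ∈ Set.range (MvPolynomial.map (algebraMap A K)) := by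
      rw [mem_range_map_iff_coeffs_subset]
      intro x hx
      exact ⟨⟨x, hSA (by rw [hS]; exact Or.inl (Or.inl (Or.inr hx)))⟩, rfl⟩
    exact this
  set vA : ι → σ → A := fun i k => ⟨v i k, hvA i k⟩ with hvAdef
  set LA : Matrix (mons σ d) (ι × mons σ d) A := fun a b => ⟨L a b, hLA a b⟩ with hLAdef
  have hvmap : (fun i k => algebraMap A K (vA i k)) = v := rfl
  -- `LA * mat = 1`
  have hLmat : LA * mat j vA s d = 1 := by
    have h1 : (LA * mat j vA s d).map (algebraMap A K) = (1 : Matrix _ _ A).map (algebraMap A K) := by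
      rw [Matrix.map_mul, mat_map, hvmap, Matrix.map_one _ (map_zero _) (map_one _), ← hL]
      rfl
    exact Matrix.map_injective hA h1
  -- transport to `Ω`
  have hfAhom : fA.IsHomogeneous D := by
    apply IsHomogeneous.of_map hA
    rw [hfA]; exact hfD
  have hfAmem : ∀ i, fA ∈ (IP (j i) (vA i)) ^ (t i) := by
    intro i
    apply of_map_mem_IP hA
    rw [hfA]
    exact hf i
  have hfΩ0 : map φ fA ≠ 0 := by
    intro h
    have h1 : φ (coeff γ₀ fA) = 0 := by
      rw [← coeff_map, h, coeff_zero]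
    have h2 : coeff γ₀ fA * ⟨(coeff γ₀ f)⁻¹, hinvA⟩ = 1 := by
      apply hA
      rw [map_mul, map_one, ← coeff_map, hfA]
      exact mul_inv_cancel₀ hγ₀
    have h3 := congrArg φ h2
    rw [map_mul, h1, zero_mul, map_one] at h3
    exact zero_ne_one h3
  obtain ⟨d₀, g₀, hg₀0, hg₀d, hg₀mem, hg₀deg⟩ := core_char_p p j (fun i k => φ (vA i k)) hN hN1
    hfΩ0 (hfAhom.map φ) c r hr t s (fun i => map_mem_IP φ (hfAmem i)) hst hex
  have hd₀ : d₀ ≤ d := by
    have h1 : d₀ + (N - 1) ≤ c * D / r := by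
      rw [Nat.le_div_iff_mul_le hr, Nat.mul_comm]
      exact hg₀deg
    omega
  have hσ : Nonempty σ := by
    rw [← Fintype.card_pos_iff, hN]
    omega
  obtain ⟨k⟩ := hσ
  set g₁ := g₀ * X k ^ (d - d₀) with hg₁
  have hg₁0 : g₁ ≠ 0 := mul_ne_zero hg₀0 (pow_ne_zero _ (X_ne_zero k))
  have hg₁d : g₁.IsHomogeneous d := by
    have := hg₀d.mul (isHomogeneous_X_pow (R := Ω) k (d - d₀))
    rwa [Nat.add_sub_cancel' hd₀] at this
  have hg₁mem : ∀ i, g₁ ∈ (IP (j i) (fun k => φ (vA i k))) ^ (s i) := fun i =>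
    Ideal.mul_mem_right _ _ (hg₀mem i)
  rw [← poly_coeff hg₁d] at hg₁mem
  rw [mat_mulVec] at hg₁mem
  have hLΩ : LA.map φ * mat j (fun i k => φ (vA i k)) s d = 1 := by
    rw [← mat_map φ, ← Matrix.map_mul, hLmat, Matrix.map_one _ (map_zero _) (map_one _)]
  have hx0 : (fun δ : mons σ d => coeff δ.1 g₁) = 0 := by
    have h1 := congrArg (fun y => (LA.map φ).mulVec y) hg₁mem
    simp only [Matrix.mulVec_mulVec, Matrix.mulVec_zero] at h1
    rw [hLΩ, Matrix.one_mulVec] at h1
    exact h1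
  apply hg₁0
  rw [← poly_coeff hg₁d, hx0]
  unfold poly
  simp

end Field

end Pool.Agent.LibHelper39
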