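import Mathlib

/-!
Basic tools: partial-degree filtration, shear automorphism, ideal of a point.
-/

set_option linter.unusedSectionVars false
set_option linter.unusedSimpArgs false

namespace Pool.Agent.LibHelper39

open MvPolynomial Finset

section Partial

variable {σ : Type*} [Fintype σ] [DecidableEq σ]

/-- partial degree omitting the coordinate `j` -/
def pd (j : σ) (γ : σ →₀ ℕ) : ℕ := ∑ i ∈ Finset.univ.erase j, γ i

lemma pd_add (j : σ) (a b : σ →₀ ℕ) : pd j (a + b) = pd j a + pd j b := by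
  simp [pd, Finset.sum_add_distrib]

lemma pd_smul (j : σ) (n : ℕ) (a : σ →₀ ℕ) : pd j (n • a) = n * pd j a := by
  simp [pd, Finset.mul_sum]

lemma pd_zero (j : σ) : pd j 0 = 0 := by simp [pd]

lemma pd_single_ne {j i : σ} (h : i ≠ j) (n : ℕ) : pd j (Finsupp.single i n) = n := by
  unfold pd
  rw [Finset.sum_eq_single_of_mem i (by simp [h])]
  · simp
  · intro b _ hb
    simp [Finsupp.single_apply, hb.symm]

lemma pd_single_same {j : σ} (n : ℕ) : pd j (Finsupp.single j n) = 0 := by
  unfold pd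
  apply Finset.sum_eq_zero
  intro b hb
  have : j ≠ b := fun h => by simp [h] at hb
  simp [Finsupp.single_apply, this]

lemma pd_le_of_lt {j : σ} {γ : σ →₀ ℕ} {Q N : ℕ} (hN : Fintype.card σ = N + 1)
    (h : ∀ i, γ i < Q) : pd j γ ≤ N * (Q - 1) := by
  unfold pd
  calc ∑ i ∈ Finset.univ.erase j, γ i ≤ ∑ i ∈ Finset.univ.erase j, (Q - 1) :=
        Finset.sum_le_sum (fun i _ => by have := h i; omega)
    _ = N * (Q - 1) := by
        rw [Finset.sum_const, Finset.card_erase_of_mem (Finset.mem_univ j), Finset.card_univ, hN]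
        simp

variable {R : Type*} [CommRing R]

/-- polynomials all of whose monomials have partial degree at least `s` -/
def W (R : Type*) [CommRing R] (j : σ) (s : ℕ) : Ideal (MvPolynomial σ R) where
  carrier := {h | ∀ γ : σ →₀ ℕ, pd j γ < s → coeff γ h = 0}
  add_mem' := by
    intro a b ha hb γ hγ
    rw [coeff_add, ha γ hγ, hb γ hγ, add_zero]
  zero_mem' := by
    intro γ _
    simp
  smul_mem' := by
    intro c x hx γ hγ
    rw [smul_eq_mul, coeff_mul]
    apply Finset.sum_eq_zero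
    intro ab hab
    rw [Finset.HasAntidiagonal.mem_antidiagonal] at hab
    have : pd j ab.2 < s := by
      have h := pd_add j ab.1 ab.2
      rw [hab] at h
      omega
    rw [hx ab.2 this, mul_zero]

lemma mem_W {j : σ} {s : ℕ} {h : MvPolynomial σ R} :
    h ∈ W R j s ↔ ∀ γ : σ →₀ ℕ, pd j γ < s → coeff γ h = 0 := Iff.rfl

lemma W_mul_mem {j : σ} {s t : ℕ} {a b : MvPolynomial σ R} (ha : a ∈ W R j s) (hb : b ∈ W R j t) :
    a * b ∈ W R j (s + t) := by
  intro γ hγ
  rw [coeff_mul]
  apply Finset.sum_eq_zero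
  intro ab hab
  rw [Finset.HasAntidiagonal.mem_antidiagonal] at hab
  have h := pd_add j ab.1 ab.2
  rw [hab] at h
  by_cases h1 : pd j ab.1 < s
  · rw [ha _ h1, zero_mul]
  · rw [hb ab.2 (by omega), mul_zero]

lemma W_zero (j : σ) : W R j 0 = ⊤ := by
  rw [Ideal.eq_top_iff_one]
  intro γ hγ
  omega

lemma W_mono {j : σ} {s t : ℕ} (h : s ≤ t) : W R j t ≤ W R j s :=
  fun _ hx γ hγ => hx γ (lt_of_lt_of_le hγ h)

lemma W_mul_le {j : σ} {s t : ℕ} : W R j s * W R j t ≤ W R j (s + t) := by
  rw [Ideal.mul_le]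
  intro a ha b hb
  exact W_mul_mem ha hb

lemma W_pow_le {j : σ} {s : ℕ} : (W R j 1) ^ s ≤ W R j s := by
  induction s with
  | zero => rw [W_zero]; exact le_top
  | succ n ih =>
    rw [pow_succ]
    exact (Ideal.mul_mono_left ih).trans W_mul_le

/-- the shear `X_i ↦ X_i + v_i X_j` for `i ≠ j`, `X_j ↦ X_j` -/
noncomputable def sh (j : σ) (v : σ → R) : MvPolynomial σ R →ₐ[R] MvPolynomial σ R :=
  aeval (fun i => if i = j then X j else X i + C (v i) * X j)

lemma sh_X_same (j : σ) (v : σ → R) : sh j v (X j) = X j := by simp [sh]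

lemma sh_X_ne {j i : σ} (h : i ≠ j) (v : σ → R) : sh j v (X i) = X i + C (v i) * X j := by
  simp [sh, h]

lemma sh_comp_neg (j : σ) (v : σ → R) : (sh j v).comp (sh j (-v)) = AlgHom.id R _ := by
  ext i
  by_cases h : i = j
  · subst h; simp [sh_X_same]
  · simp only [AlgHom.comp_apply, sh_X_ne h, map_add, map_mul, sh_X_same, Pi.neg_apply]
    simp [sh, h]

lemma sh_sh_neg (j : σ) (v : σ → R) (x : MvPolynomial σ R) : sh j v (sh j (-v) x) = x := by
  have := congrArg (fun f => f x) (sh_comp_neg j v)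
  simpa using this

lemma sh_neg_sh (j : σ) (v : σ → R) (x : MvPolynomial σ R) : sh j (-v) (sh j v x) = x := by
  have := sh_sh_neg j (-v) x
  simpa using this

lemma sh_injective (j : σ) (v : σ → R) : Function.Injective (sh j v) :=
  Function.LeftInverse.injective (sh_neg_sh j v)

/-- ideal of the point with coordinate vector `v` (with `v j = 1` in mind). -/
noncomputable def IP (j : σ) (v : σ → R) : Ideal (MvPolynomial σ R) :=
  Ideal.span {x | ∃ i, i ≠ j ∧ x = X i - C (v i) * X j}

lemma sh_gen_mem {j i : σ} (h : i ≠ j) (v : σ → R) : sh j v (X i - C (v i) * X j) ∈ W R j 1 := by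
  have : sh j v (X i - C (v i) * X j) = X i := by
    rw [map_sub, map_mul, sh_X_ne h, sh_X_same]
    simp [sh]
  rw [this]
  intro γ hγ
  rw [coeff_X]
  split_ifs with h1
  · subst h1
    rw [pd_single_ne h] at hγ
    omega
  · rfl

lemma IP_le_comap (j : σ) (v : σ → R) : IP j v ≤ (W R j 1).comap (sh j v) := by
  unfold IP
  rw [Ideal.span_le]
  rintro x ⟨i, hi, rfl⟩
  exact sh_gen_mem hi v

lemma sh_neg_monomial_mem (j : σ) (v : σ → R) (γ : σ →₀ ℕ) (c : R) :
    sh j (-v) (monomial γ c) ∈ (IP j v) ^ (pd j γ) := by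
  have h0 : sh j (-v) (monomial γ c) = C c * ∏ i, (sh j (-v) (X i)) ^ (γ i) := by
    rw [monomial_eq, map_mul]
    congr 1
    · simp [sh]
    · rw [Finsupp.prod_fintype _ _ (by simp), map_prod]
      simp
  rw [h0]
  apply Ideal.mul_mem_left
  rw [← Finset.mul_prod_erase _ _ (Finset.mem_univ j)]
  apply Ideal.mul_mem_left
  unfold pd
  rw [← Finset.prod_pow_eq_pow_sum]
  apply Ideal.prod_mem_prod
  intro i hi
  have hij : i ≠ j := (Finset.mem_erase.mp hi).1
  apply Ideal.pow_mem_pow
  rw [sh_X_ne hij]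
  apply Ideal.subset_span
  refine ⟨i, hij, ?_⟩
  simp [sub_eq_add_neg]

theorem mem_IP_pow (j : σ) (v : σ → R) (s : ℕ) (g : MvPolynomial σ R) :
    g ∈ (IP j v) ^ s ↔ sh j v g ∈ W R j s := by
  constructor
  · intro hg
    have h1 : (IP j v) ^ s ≤ (W R j s).comap (sh j v) := by
      calc (IP j v) ^ s ≤ ((W R j 1).comap (sh j v)) ^ s := Ideal.pow_right_mono (IP_le_comap j v) s
        _ ≤ ((W R j 1) ^ s).comap (sh j v) := Ideal.le_comap_pow _ s
        _ ≤ (W R j s).comap (sh j v) := Ideal.comap_mono W_pow_le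
    exact h1 hg
  · intro hg
    have h1 : g = sh j (-v) (sh j v g) := (sh_neg_sh j v g).symm
    rw [h1, (sh j v g).as_sum, map_sum]
    apply Ideal.sum_mem
    intro γ hγ
    have hs : s ≤ pd j γ := by
      by_contra hlt
      push Not at hlt
      exact (mem_support_iff.mp hγ) (hg γ hlt)
    exact Ideal.pow_le_pow_right hs (sh_neg_monomial_mem j v γ _)

end Partial

end Pool.Agent.LibHelper39
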