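import Pool.Agent.LibHelper39.Frob

/-!
Core theorem in characteristic `p` over a perfect field.
-/

set_option linter.unusedSectionVars false
set_option linter.unusedSimpArgs false

namespace Pool.Agent.LibHelper39

open MvPolynomial Finset

section Lower

variable {σ : Type*} [Fintype σ] [DecidableEq σ]

lemma pderiv_mem {R : Type*} [CommRing R] {I : Ideal (MvPolynomial σ R)} {s : ℕ}
    {g : MvPolynomial σ R} (hg : g ∈ I ^ s) (i : σ) : pderiv i g ∈ I ^ (s - 1) := by
  induction s generalizing g with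
  | zero => simp
  | succ n ih =>
    rw [pow_succ] at hg
    rw [Nat.add_sub_cancel]
    refine Submodule.mul_induction_on hg ?_ ?_
    · intro a ha b hb
      rw [pderiv_mul]
      apply Ideal.add_mem
      · rcases Nat.eq_zero_or_pos n with h0 | h0
        · subst h0; simp
        · have h1 : pderiv i a * b ∈ I ^ (n - 1) * I := Ideal.mul_mem_mul (ih ha) hb
          rw [← pow_succ, Nat.sub_add_cancel h0] at h1
          exact h1
      · exact Ideal.mul_mem_right _ _ ha
    · intro a b ha hb
      rw [map_add]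
      exact Ideal.add_mem _ ha hb

variable {K : Type*} [Field K]
variable (p : ℕ) [hp : Fact p.Prime] [CharP K p] [PerfectRing K p]

lemma degree_pos_of_mem {j : σ} {v : σ → K} {s : ℕ} (hs : 1 ≤ s) {g : MvPolynomial σ K}
    (hg0 : g ≠ 0) {d : ℕ} (hd : g.IsHomogeneous d) (hg : g ∈ (IP j v) ^ s) : 1 ≤ d := by
  by_contra h
  have hd0 : d = 0 := by omega
  subst hd0
  rw [← totalDegree_zero_iff_isHomogeneous, totalDegree_eq_zero_iff_eq_C] at hd
  rw [mem_IP_pow] at hg
  have h1 := hg 0 (by rw [pd_zero]; omega)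
  rw [hd] at h1
  have h2 : sh j v (C (coeff 0 g)) = C (coeff 0 g) := by simp [sh]
  rw [h2, coeff_zero_C] at h1
  rw [h1] at hd
  exact hg0 (by simpa using hd)

lemma eq_pow_of_pderiv_eq_zero {g : MvPolynomial σ K} (h : ∀ i, pderiv i g = 0) :
    g = (psi p 1 0 g) ^ (p ^ 1) := by
  have h0 : (0 : σ →₀ ℕ) ∈ box σ (p ^ 1) := by
    rw [mem_box (Qpos p 1)]
    intro i
    simpa using hp.out.pos
  conv_lhs => rw [decomp p 1 g]
  rw [Finset.sum_eq_single_of_mem 0 h0]
  · rw [← one_def, mul_one]
  · intro β hβ hne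
    have hb := (mem_box (Qpos p 1)).mp hβ
    obtain ⟨i, hi⟩ := Finsupp.ne_iff.mp hne
    have : psi p 1 β g = 0 := by
      ext γ
      rw [coeff_psi, coeff_zero]
      have hlt := hb i
      have hi' : β i ≠ 0 := hi
      set δ := (p ^ 1) • γ + β with hδ
      have hδi : δ i = p * γ i + β i := by simp [hδ]
      have hsingle : Finsupp.single i 1 ≤ δ := by
        rw [Finsupp.single_le_iff]
        omega
      have h1 := congrArg (coeff (δ - Finsupp.single i 1)) (h i)
      rw [coeff_pderiv, coeff_zero, tsub_add_cancel_of_le hsingle] at h1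
      have h2 : ((((δ - Finsupp.single i 1 : σ →₀ ℕ)) i : ℕ) : K) + 1 = ((δ i : ℕ) : K) := by
        rw [Finsupp.coe_tsub, Pi.sub_apply, Finsupp.single_eq_same]
        have : 1 ≤ δ i := by omega
        push_cast [this]
        ring
      rw [h2] at h1
      have h3 : ((δ i : ℕ) : K) ≠ 0 := by
        rw [Ne, CharP.cast_eq_zero_iff K p, hδi, Nat.dvd_add_right (Dvd.intro _ rfl)]
        intro hdvd
        apply hi'
        rw [pow_one] at hlt
        exact Nat.eq_zero_of_dvd_of_lt hdvd hlt
      rcases mul_eq_zero.mp h1 with h4 | h4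
      · rw [h4, map_zero]
      · exact absurd h4 h3
    rw [this, zero_pow (Qpos p 1).ne', zero_mul]

include p in
/-- Step (C): lower all multiplicities by one at the cost of one degree. -/
theorem lower {ι : Type*} (j : ι → σ) (v : ι → σ → K) :
    ∀ (d : ℕ) (t : ι → ℕ) (_ : ∃ i, 1 ≤ t i) (g : MvPolynomial σ K), g ≠ 0 →
      g.IsHomogeneous d → (∀ i, g ∈ (IP (j i) (v i)) ^ (t i)) →
      ∃ (d' : ℕ) (g' : MvPolynomial σ K), d = d' + 1 ∧ g' ≠ 0 ∧ g'.IsHomogeneous d' ∧
        ∀ i, g' ∈ (IP (j i) (v i)) ^ (t i - 1) := by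
  intro d
  induction d using Nat.strong_induction_on with
  | _ d ih =>
    intro t hex g hg0 hgd hg
    have hd1 : 1 ≤ d := by
      obtain ⟨i, hi⟩ := hex
      exact degree_pos_of_mem hi hg0 hgd (hg i)
    by_cases hpd : ∃ i, pderiv i g ≠ 0
    · obtain ⟨k, hk⟩ := hpd
      exact ⟨d - 1, pderiv k g, by omega, hk, hgd.pderiv, fun i => pderiv_mem (hg i) k⟩
    · push Not at hpd
      have hG := eq_pow_of_pderiv_eq_zero p hpd
      set G := psi p 1 0 g with hGdef
      have hG0 : G ≠ 0 := by
        intro h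
        rw [h, zero_pow (Qpos p 1).ne'] at hG
        exact hg0 hG
      obtain ⟨d₁, hd₁⟩ := exists_degree_of_psi_ne_zero p 1 hgd hG0
      have hGd : G.IsHomogeneous d₁ := psi_isHomogeneous p 1 hgd hd₁
      have hd₁' : p * d₁ = d := by simpa using hd₁
      have hp2 := hp.out.two_le
      have hd₁pos : 1 ≤ d₁ := by
        rcases Nat.eq_zero_or_pos d₁ with h | h
        · subst h; omega
        · exact h
      have hlt : d₁ < d := by nlinarith
      set t' : ι → ℕ := fun i => (t i + (p - 1)) / p with ht'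
      have ht1 : ∀ i, t i ≤ p * t' i := by
        intro i
        have h1 : t i + (p - 1) < p * (t' i + 1) := by
          rw [ht']
          exact Nat.lt_mul_div_succ _ hp.out.pos
        rw [Nat.mul_add] at h1
        omega
      have hGt : ∀ i, G ∈ (IP (j i) (v i)) ^ (t' i) := by
        intro i
        rcases Nat.eq_zero_or_pos (t i) with h | h
        · have : t' i = 0 := by
            rw [ht']
            simp only
            rw [h, zero_add]
            exact Nat.div_eq_of_lt (by omega)
          rw [this]; simp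
        · apply mem_of_pow_mem p 1 (s := t i)
          · rw [← hG]; exact hg i
          · rw [pow_one]
            have h1 : p * t' i ≤ t i + (p - 1) := by
              rw [ht']
              exact Nat.mul_div_le _ _
            rw [Nat.mul_sub]
            omega
      have hex' : ∃ i, 1 ≤ t' i := by
        obtain ⟨i, hi⟩ := hex
        refine ⟨i, ?_⟩
        have := ht1 i
        rcases Nat.eq_zero_or_pos (t' i) with h | h
        · rw [h] at this; omega
        · exact h
      obtain ⟨d', G', hd', hG'0, hG'd, hG't⟩ := ih d₁ hlt t' hex' G hG0 hGd hGt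
      refine ⟨d₁ * (p - 1) + d', G ^ (p - 1) * G', ?_, ?_, ?_, ?_⟩
      · obtain ⟨q, hq⟩ : ∃ q, p = q + 1 := ⟨p - 1, by omega⟩
        rw [hq, Nat.add_sub_cancel]
        rw [hq] at hd₁'
        rw [← hd₁']
        nlinarith
      · exact mul_ne_zero (pow_ne_zero _ hG0) hG'0
      · exact (hGd.pow _).mul hG'd
      · intro i
        have h1 : G ^ (p - 1) * G' ∈ (IP (j i) (v i)) ^ (t' i * (p - 1) + (t' i - 1)) := by
          rw [pow_add, pow_mul]
          exact Ideal.mul_mem_mul (Ideal.pow_mem_pow (hGt i) _) (hG't i)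
        refine Ideal.pow_le_pow_right ?_ h1
        have h2 := ht1 i
        rcases Nat.eq_zero_or_pos (t' i) with h | h
        · rw [h] at h2; omega
        · obtain ⟨q, hq⟩ : ∃ q, p = q + 1 := ⟨p - 1, by omega⟩
          rw [hq, Nat.add_sub_cancel]
          rw [hq] at h2
          have h3 : (q + 1) * t' i = t' i * q + t' i := by ring
          omega

include p in
theorem lower_iter {ι : Type*} (j : ι → σ) (v : ι → σ → K) (n : ℕ) :
    ∀ (d : ℕ) (t : ι → ℕ) (_ : ∃ i, n ≤ t i) (g : MvPolynomial σ K), g ≠ 0 →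
      g.IsHomogeneous d → (∀ i, g ∈ (IP (j i) (v i)) ^ (t i)) →
      ∃ (d' : ℕ) (g' : MvPolynomial σ K), d = d' + n ∧ g' ≠ 0 ∧ g'.IsHomogeneous d' ∧
        ∀ i, g' ∈ (IP (j i) (v i)) ^ (t i - n) := by
  induction n with
  | zero =>
    intro d t _ g hg0 hgd hg
    exact ⟨d, g, rfl, hg0, hgd, fun i => by simpa using hg i⟩
  | succ n ih =>
    intro d t hex g hg0 hgd hg
    have hex1 : ∃ i, 1 ≤ t i := by
      obtain ⟨i, hi⟩ := hex
      exact ⟨i, by omega⟩
    obtain ⟨d', g', hd', hg'0, hg'd, hg't⟩ := lower p j v d t hex1 g hg0 hgd hg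
    have hex2 : ∃ i, n ≤ t i - 1 := by
      obtain ⟨i, hi⟩ := hex
      exact ⟨i, by omega⟩
    obtain ⟨d'', g'', hd'', hg''0, hg''d, hg''t⟩ :=
      ih d' (fun i => t i - 1) hex2 g' hg'0 hg'd hg't
    refine ⟨d'', g'', by omega, hg''0, hg''d, fun i => ?_⟩
    have := hg''t i
    rwa [Nat.sub_sub, Nat.add_comm 1 n] at this

end Lower

section Core

variable {σ : Type*} [Fintype σ] [DecidableEq σ]
variable {K : Type*} [Field K]
variable (p : ℕ) [hp : Fact p.Prime] [CharP K p] [PerfectRing K p]

include p in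
/-- Core theorem over a perfect field of characteristic `p`. -/
theorem core_char_p {ι : Type*} (j : ι → σ) (v : ι → σ → K) {N : ℕ}
    (hN : Fintype.card σ = N + 1) (hN1 : 1 ≤ N)
    {f : MvPolynomial σ K} (hf0 : f ≠ 0) {D : ℕ} (hfD : f.IsHomogeneous D)
    (c r : ℕ) (hr : 0 < r) (t s : ι → ℕ)
    (hf : ∀ i, f ∈ (IP (j i) (v i)) ^ (t i))
    (hst : ∀ i, s i = 0 ∨ r * (s i + (N - 1)) ≤ c * t i)
    (hex : ∃ i, r * (s i + (N - 1)) ≤ c * t i) :
    ∃ (d : ℕ) (g : MvPolynomial σ K), g ≠ 0 ∧ g.IsHomogeneous d ∧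
      (∀ i, g ∈ (IP (j i) (v i)) ^ (s i)) ∧ r * (d + (N - 1)) ≤ c * D := by
  classical
  -- choose a large power of `p`
  obtain ⟨e, he⟩ : ∃ e, r * D < p ^ e := ⟨r * D, Nat.lt_pow_self hp.out.one_lt⟩
  set q := p ^ e with hq
  have hqpos : 0 < q := Qpos p e
  set a := (c * q + (r - 1)) / r with ha
  have ha1 : c * q ≤ a * r := by
    have h1 : c * q + (r - 1) < r * (a + 1) := Nat.lt_mul_div_succ _ hr
    rw [Nat.mul_add] at h1
    rw [Nat.mul_comm a r]
    omega
  have ha2 : a * r ≤ c * q + (r - 1) := Nat.div_mul_le_self _ _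
  -- the power `f ^ a`
  set F := f ^ a with hF
  have hF0 : F ≠ 0 := pow_ne_zero _ hf0
  have hFD : F.IsHomogeneous (D * a) := hfD.pow a
  have hFt : ∀ i, F ∈ (IP (j i) (v i)) ^ (t i * a) := fun i => by
    rw [pow_mul]; exact Ideal.pow_mem_pow (hf i) a
  have hat : ∀ i, r * (s i + (N - 1)) ≤ c * t i → q * (s i + (N - 1)) ≤ t i * a := by
    intro i hi
    have h1 : r * (q * (s i + (N - 1))) ≤ r * (t i * a) := by
      calc r * (q * (s i + (N - 1))) = q * (r * (s i + (N - 1))) := by ring
        _ ≤ q * (c * t i) := Nat.mul_le_mul_left _ hi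
        _ = (c * q) * t i := by ring
        _ ≤ (a * r) * t i := Nat.mul_le_mul_right _ ha1
        _ = r * (t i * a) := by ring
    exact Nat.le_of_mul_le_mul_left h1 hr
  -- the top component
  set B := (box σ q).filter (fun β => psi p e β F ≠ 0) with hB
  have hBne : B.Nonempty := by
    by_contra hemp
    rw [Finset.not_nonempty_iff_eq_empty] at hemp
    apply hF0
    rw [decomp p e F]
    apply Finset.sum_eq_zero
    intro β hβ
    have : psi p e β F = 0 := by
      by_contra h
      have : β ∈ B := Finset.mem_filter.mpr ⟨hβ, h⟩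
      rw [hemp] at this
      simp at this
    rw [this, zero_pow hqpos.ne', zero_mul]
  obtain ⟨β₀, hβ₀B, hβ₀max⟩ := Finset.exists_max_image B (fun β => β.degree) hBne
  have hβ₀box : β₀ ∈ box σ q := (Finset.mem_filter.mp hβ₀B).1
  have hu0 : psi p e β₀ F ≠ 0 := (Finset.mem_filter.mp hβ₀B).2
  have hmax : ∀ β ∈ box σ (p ^ e), β₀.degree < β.degree → psi p e β F = 0 := by
    intro β hβ hlt
    by_contra h
    have := hβ₀max β (Finset.mem_filter.mpr ⟨hβ, h⟩)
    omega
  set u := psi p e β₀ F with hu
  obtain ⟨du, hdu⟩ := exists_degree_of_psi_ne_zero p e hFD hu0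
  have huD : u.IsHomogeneous du := psi_isHomogeneous p e hFD hdu
  -- number of derivatives
  set b₀ := β₀.degree / q with hb₀
  set n := (N - 1) - b₀ with hn
  have hb₀1 : q * b₀ ≤ β₀.degree := Nat.mul_div_le _ _
  have hb₀2 : β₀.degree < q * (b₀ + 1) := Nat.lt_mul_div_succ _ hqpos
  -- multiplicities of `u`
  have hut : ∀ i, r * (s i + (N - 1)) ≤ c * t i → u ∈ (IP (j i) (v i)) ^ (s i + n) := by
    intro i hi
    have h1 := hat i hi
    rcases Nat.lt_or_ge b₀ (N - 1) with hlt | hge
    · -- few derivatives: use (B)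
      apply top_mem_IP p e hβ₀box hmax (hFt i)
      have h2 : s i + n - 1 + 1 = s i + n := by omega
      have h3 : q * (s i + n - 1) + q = q * (s i + n) := by
        rw [← h2, Nat.mul_add, Nat.mul_one, Nat.add_sub_cancel]
      have h4 : q * (s i + n) + q * b₀ = q * (s i + (N - 1)) := by
        rw [← Nat.mul_add]
        congr 1
        omega
      rw [Nat.mul_add] at hb₀2
      rw [Nat.mul_one] at hb₀2
      have h5 : p ^ e = q := rfl
      rw [h5]
      omega
    · have hn0 : n = 0 := by omega
      rw [hn0, add_zero]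
      rcases Nat.eq_zero_or_pos (s i) with h0 | h0
      · rw [h0]; simp
      apply psi_mem_IP p e hN _ (hFt i) hβ₀box
      have h2 : q * (s i + (N - 1)) = q * (s i - 1) + q * N := by
        rw [← Nat.mul_add]
        congr 1
        omega
      have h3 : N * (q - 1) + N = q * N := by
        rw [Nat.mul_sub, Nat.mul_one, Nat.sub_add_cancel (Nat.le_mul_of_pos_right _ hqpos),
          Nat.mul_comm]
      have h4 : p ^ e = q := rfl
      rw [h4]
      omega
  -- lower the multiplicities
  set T : ι → ℕ := fun i => if r * (s i + (N - 1)) ≤ c * t i then s i + n else 0 with hT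
  have huT : ∀ i, u ∈ (IP (j i) (v i)) ^ (T i) := by
    intro i
    simp only [hT]
    split_ifs with h
    · exact hut i h
    · simp
  have hexT : ∃ i, n ≤ T i := by
    obtain ⟨i, hi⟩ := hex
    refine ⟨i, ?_⟩
    simp only [hT]
    rw [if_pos hi]
    omega
  obtain ⟨d, g, hd, hg0, hgd, hgT⟩ := lower_iter p j v n du T hexT u hu0 huD huT
  refine ⟨d, g, hg0, hgd, ?_, ?_⟩
  · intro i
    have h1 := hgT i
    simp only [hT] at h1
    split_ifs at h1 with h
    · simpa using h1
    · rcases hst i with h0 | h0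
      · rw [h0]; simp
      · exact absurd h0 h
  · -- numerical estimate
    have h1 : q * (d + (N - 1)) ≤ D * a := by
      have h2 : q * (d + (N - 1)) ≤ q * (d + n) + q * b₀ := by
        rw [← Nat.mul_add]
        apply Nat.mul_le_mul_left
        omega
      rw [← hd] at h2
      have h4 : p ^ e = q := rfl
      rw [h4] at hdu
      omega
    have h2 : q * (r * (d + (N - 1))) < q * (c * D + 1) := by
      calc q * (r * (d + (N - 1))) = r * (q * (d + (N - 1))) := by ring
        _ ≤ r * (D * a) := Nat.mul_le_mul_left _ h1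
        _ = D * (a * r) := by ring
        _ ≤ D * (c * q + (r - 1)) := Nat.mul_le_mul_left _ ha2
        _ ≤ q * (c * D) + r * D := by
            rw [Nat.mul_add]
            have : D * (r - 1) ≤ r * D := by
              rw [Nat.mul_comm r D]
              exact Nat.mul_le_mul_left _ (by omega)
            nlinarith
        _ < q * (c * D) + q := by omega
        _ = q * (c * D + 1) := by ring
    have h3 := Nat.lt_of_mul_lt_mul_left h2
    omega

end Core

end Pool.Agent.LibHelper39
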