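import Pool.Agent.LibHelper39.Taylor

/-!
Frobenius decomposition `F = ∑ ψ_β(F)^Q x^β` over a perfect field of characteristic `p`.
-/

set_option linter.unusedSectionVars false
set_option linter.unusedSimpArgs false

namespace Pool.Agent.LibHelper39

open MvPolynomial Finset

section FrobPow

variable {σ : Type*} [Fintype σ] [DecidableEq σ] {R : Type*} [CommRing R]
variable (p : ℕ) [hp : Fact p.Prime] [CharP R p] (e : ℕ)

lemma pow_eq_map_expand (u : MvPolynomial σ R) :
    u ^ (p ^ e) = map (iterateFrobenius R p e) (expand (p ^ e) u) := by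
  have h : iterateFrobenius (MvPolynomial σ R) p e =
      (map (iterateFrobenius R p e)).comp (expand (p ^ e) : _ →ₐ[R] _).toRingHom := by
    apply MvPolynomial.ringHom_ext
    · intro r
      simp [iterateFrobenius_def]
    · intro i
      simp [iterateFrobenius_def]
  have := congrArg (fun f => f u) h
  simpa [iterateFrobenius_def] using this

lemma coeff_pow_smul (u : MvPolynomial σ R) (γ : σ →₀ ℕ) :
    coeff ((p ^ e) • γ) (u ^ (p ^ e)) = (coeff γ u) ^ (p ^ e) := by
  rw [pow_eq_map_expand, coeff_map, coeff_expand_smul _ (pow_ne_zero _ hp.out.ne_zero),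
    iterateFrobenius_def]

lemma coeff_pow_of_not_dvd (u : MvPolynomial σ R) (γ : σ →₀ ℕ) (i : σ) (h : ¬ p ^ e ∣ γ i) :
    coeff γ (u ^ (p ^ e)) = 0 := by
  rw [pow_eq_map_expand, coeff_map, coeff_expand_of_not_dvd _ h, map_zero]

end FrobPow

section Psi

variable {σ : Type*} [Fintype σ] [DecidableEq σ] {K : Type*} [Field K]
variable (p : ℕ) [hp : Fact p.Prime] [CharP K p] [PerfectRing K p] (e : ℕ)

lemma Qpos : 0 < p ^ e := pow_pos hp.out.pos e

lemma smul_add_injective (β : σ →₀ ℕ) :
    Function.Injective (fun γ : σ →₀ ℕ => (p ^ e) • γ + β) := by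
  intro a b hab
  have h1 : (p ^ e) • a = (p ^ e) • b := add_right_cancel hab
  ext i
  have := congrArg (fun f => f i) h1
  simp only [Finsupp.coe_smul, Pi.smul_apply, smul_eq_mul] at this
  exact Nat.eq_of_mul_eq_mul_left (Qpos p e) this

/-- the Cartier-type operator -/
noncomputable def psi (β : σ →₀ ℕ) (F : MvPolynomial σ K) : MvPolynomial σ K :=
  AddMonoidAlgebra.ofCoeff
    (((AddMonoidAlgebra.coeff F).comapDomain (fun γ => (p ^ e) • γ + β)
      (smul_add_injective p e β).injOn).mapRange (iterateFrobeniusEquiv K p e).symm (map_zero _))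

lemma coeff_psi (β : σ →₀ ℕ) (F : MvPolynomial σ K) (γ : σ →₀ ℕ) :
    coeff γ (psi p e β F) = (iterateFrobeniusEquiv K p e).symm (coeff ((p ^ e) • γ + β) F) := by
  rfl

lemma root_pow (x : K) : ((iterateFrobeniusEquiv K p e).symm x) ^ (p ^ e) = x := by
  rw [← iterateFrobeniusEquiv_def]
  exact (iterateFrobeniusEquiv K p e).apply_symm_apply x

lemma root_of_pow (x : K) : (iterateFrobeniusEquiv K p e).symm (x ^ (p ^ e)) = x := by
  rw [← iterateFrobeniusEquiv_def]
  exact (iterateFrobeniusEquiv K p e).symm_apply_apply x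

lemma psi_add (β : σ →₀ ℕ) (F G : MvPolynomial σ K) :
    psi p e β (F + G) = psi p e β F + psi p e β G := by
  ext γ
  simp [coeff_psi]

lemma psi_zero (β : σ →₀ ℕ) : psi p e β (0 : MvPolynomial σ K) = 0 := by
  ext γ
  simp [coeff_psi]

/-- additive version -/
noncomputable def psiHom (β : σ →₀ ℕ) : MvPolynomial σ K →+ MvPolynomial σ K where
  toFun := psi p e β
  map_zero' := psi_zero p e β
  map_add' := psi_add p e β

lemma psi_sum {ι : Type*} (s : Finset ι) (β : σ →₀ ℕ) (F : ι → MvPolynomial σ K) :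
    psi p e β (∑ i ∈ s, F i) = ∑ i ∈ s, psi p e β (F i) :=
  map_sum (psiHom p e β) F s

/-- the box of exponents -/
noncomputable def box (σ : Type*) [Fintype σ] [DecidableEq σ] (Q : ℕ) : Finset (σ →₀ ℕ) :=
  Finset.Iic (Finsupp.equivFunOnFinite.symm (fun _ => Q - 1))

lemma mem_box {Q : ℕ} (hQ : 0 < Q) {β : σ →₀ ℕ} : β ∈ box σ Q ↔ ∀ i, β i < Q := by
  unfold box
  rw [Finset.mem_Iic, Finsupp.le_def]
  constructor
  · intro h i
    have := h i
    simp at this
    omega
  · intro h i
    have := h i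
    simp
    omega

lemma psi_pow_mul {β : σ →₀ ℕ} (hβ : β ∈ box σ (p ^ e)) (A F : MvPolynomial σ K) :
    psi p e β (A ^ (p ^ e) * F) = A * psi p e β F := by
  have hβ' := (mem_box (Qpos p e)).mp hβ
  induction A using MvPolynomial.induction_on' with
  | monomial α c =>
    ext γ
    rw [coeff_psi, monomial_pow, coeff_monomial_mul', coeff_monomial_mul']
    by_cases h : α ≤ γ
    · have h' : (p ^ e) • α ≤ (p ^ e) • γ + β := by
        intro i
        have := h i
        simp only [Finsupp.coe_smul, Pi.smul_apply, smul_eq_mul, Finsupp.coe_add, Pi.add_apply]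
        have := Nat.mul_le_mul_left (p ^ e) this
        omega
      rw [if_pos h, if_pos h', map_mul, root_of_pow, coeff_psi]
      congr 3
      ext i
      have := h i
      simp only [Finsupp.coe_smul, Pi.smul_apply, smul_eq_mul, Finsupp.coe_add, Pi.add_apply,
        Finsupp.coe_tsub, Pi.sub_apply]
      rw [Nat.mul_sub]
      have := Nat.mul_le_mul_left (p ^ e) this
      omega
    · have h' : ¬ (p ^ e) • α ≤ (p ^ e) • γ + β := by
        intro h'
        apply h
        intro i
        have h1 := h' i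
        simp only [Finsupp.coe_smul, Pi.smul_apply, smul_eq_mul, Finsupp.coe_add, Pi.add_apply] at h1
        have h2 := hβ' i
        by_contra hlt
        push Not at hlt
        have h3 : p ^ e * (γ i + 1) ≤ p ^ e * α i := Nat.mul_le_mul_left _ hlt
        rw [Nat.mul_add, Nat.mul_one] at h3
        omega
      rw [if_neg h, if_neg h', map_zero]
  | add A B hA hB =>
    rw [add_pow_char_pow, add_mul, psi_add, hA, hB, add_mul]

lemma coeff_psi_pow_mul (β : σ →₀ ℕ) (F : MvPolynomial σ K) (δ : σ →₀ ℕ) :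
    coeff δ ((psi p e β F) ^ (p ^ e) * monomial β 1) =
      if (β ≤ δ ∧ ∀ i, p ^ e ∣ (δ - β) i) then coeff δ F else 0 := by
  rw [coeff_mul_monomial']
  by_cases h : β ≤ δ
  · rw [if_pos h, mul_one]
    by_cases h2 : ∀ i, p ^ e ∣ (δ - β) i
    · rw [if_pos ⟨h, h2⟩]
      have h3 : δ - β = (p ^ e) • (Finsupp.equivFunOnFinite.symm (fun i => (δ - β) i / p ^ e)) := by
        ext i
        simp only [Finsupp.coe_smul, Pi.smul_apply, smul_eq_mul, Finsupp.equivFunOnFinite_symm_apply_apply]
        exact (Nat.mul_div_cancel' (h2 i)).symm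
      rw [h3, coeff_pow_smul, coeff_psi, root_pow, ← h3]
      congr 1
      exact tsub_add_cancel_of_le h
    · rw [if_neg (fun h' => h2 h'.2)]
      push Not at h2
      obtain ⟨i, hi⟩ := h2
      exact coeff_pow_of_not_dvd p e _ _ i hi
  · rw [if_neg h, if_neg (fun h' => h h'.1)]

theorem decomp (F : MvPolynomial σ K) :
    F = ∑ β ∈ box σ (p ^ e), (psi p e β F) ^ (p ^ e) * monomial β 1 := by
  ext δ
  rw [coeff_sum]
  simp_rw [coeff_psi_pow_mul]
  set β₀ : σ →₀ ℕ := Finsupp.equivFunOnFinite.symm (fun i => δ i % p ^ e) with hβ₀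
  have hmem : β₀ ∈ box σ (p ^ e) := by
    rw [mem_box (Qpos p e)]
    intro i
    simp only [hβ₀, Finsupp.equivFunOnFinite_symm_apply_apply]
    exact Nat.mod_lt _ (Qpos p e)
  rw [Finset.sum_eq_single_of_mem β₀ hmem]
  · rw [if_pos]
    constructor
    · intro i
      simp only [hβ₀, Finsupp.equivFunOnFinite_symm_apply_apply]
      exact Nat.mod_le _ _
    · intro i
      simp only [hβ₀, Finsupp.equivFunOnFinite_symm_apply_apply, Finsupp.coe_tsub, Pi.sub_apply]
      exact Nat.dvd_sub_mod _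
  · intro β hβ hne
    rw [if_neg]
    rintro ⟨h1, h2⟩
    apply hne
    ext i
    simp only [hβ₀, Finsupp.equivFunOnFinite_symm_apply_apply]
    have h3 := (mem_box (Qpos p e)).mp hβ i
    obtain ⟨c, hc⟩ := h2 i
    simp only [Finsupp.coe_tsub, Pi.sub_apply] at hc
    have h4 : δ i = β i + p ^ e * c := by
      have := h1 i
      omega
    rw [h4, Nat.add_mul_mod_self_left, Nat.mod_eq_of_lt h3]

lemma isHomogeneous_iff_degree {F : MvPolynomial σ K} {n : ℕ} :
    F.IsHomogeneous n ↔ ∀ d : σ →₀ ℕ, coeff d F ≠ 0 → d.degree = n := by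
  constructor
  · intro h d hd
    by_contra hne
    exact hd (h.coeff_eq_zero hne)
  · intro h d hd
    have := h d hd
    rwa [Finsupp.degree_eq_weight_one] at this

lemma degree_smul_add (Q : ℕ) (γ β : σ →₀ ℕ) :
    (Q • γ + β).degree = Q * γ.degree + β.degree := by
  rw [map_add, map_nsmul, smul_eq_mul]

lemma psi_isHomogeneous {β : σ →₀ ℕ} {F : MvPolynomial σ K} {n : ℕ} (hF : F.IsHomogeneous n)
    {d : ℕ} (hd : p ^ e * d + β.degree = n) :
    (psi p e β F).IsHomogeneous d := by
  rw [isHomogeneous_iff_degree] at hF ⊢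
  intro γ hγ
  rw [coeff_psi] at hγ
  have h1 : coeff ((p ^ e) • γ + β) F ≠ 0 := by
    intro h
    rw [h, map_zero] at hγ
    exact hγ rfl
  have h2 := hF _ h1
  rw [degree_smul_add, ← hd] at h2
  exact Nat.eq_of_mul_eq_mul_left (Qpos p e) (Nat.add_right_cancel h2)

lemma exists_degree_of_psi_ne_zero {β : σ →₀ ℕ} {F : MvPolynomial σ K} {n : ℕ}
    (hF : F.IsHomogeneous n) (h : psi p e β F ≠ 0) : ∃ d, p ^ e * d + β.degree = n := by
  obtain ⟨γ, hγ⟩ := ne_zero_iff.mp h
  rw [coeff_psi] at hγ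
  have h1 : coeff ((p ^ e) • γ + β) F ≠ 0 := by
    intro h
    rw [h, map_zero] at hγ
    exact hγ rfl
  rw [isHomogeneous_iff_degree] at hF
  have h2 := hF _ h1
  rw [degree_smul_add] at h2
  exact ⟨_, h2⟩

/-- Step (A): every component of `G` lies in a high power of the ideal of the point. -/
theorem psi_mem_IP {N : ℕ} (hN : Fintype.card σ = N + 1) {j : σ} {v : σ → K} {s M : ℕ}
    (hs : p ^ e * (M - 1) + N * (p ^ e - 1) < s)
    {G : MvPolynomial σ K} (hG : G ∈ (IP j v) ^ s) {β : σ →₀ ℕ} (hβ : β ∈ box σ (p ^ e)) :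
    psi p e β G ∈ (IP j v) ^ M := by
  rw [mem_IP_pow] at hG ⊢
  have h1 : G = ∑ β' ∈ box σ (p ^ e),
      (sh j (-v) (psi p e β' (sh j v G))) ^ (p ^ e) * sh j (-v) (monomial β' 1) := by
    conv_lhs => rw [← sh_neg_sh j v G, decomp p e (sh j v G), map_sum]
    simp only [map_mul, map_pow]
  have h2 : psi p e β G = ∑ β' ∈ box σ (p ^ e),
      (sh j (-v) (psi p e β' (sh j v G))) * psi p e β (sh j (-v) (monomial β' 1)) := by
    conv_lhs => rw [h1, psi_sum]
    apply Finset.sum_congr rfl
    intro β' _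
    exact psi_pow_mul p e hβ _ _
  rw [h2, map_sum]
  apply Ideal.sum_mem
  intro β' hβ'
  rw [map_mul, sh_sh_neg]
  apply Ideal.mul_mem_right
  intro γ hγ
  rw [coeff_psi, hG, map_zero]
  rw [pd_add, pd_smul]
  have h3 := pd_le_of_lt (j := j) hN ((mem_box (Qpos p e)).mp hβ')
  have h4 : p ^ e * pd j γ ≤ p ^ e * (M - 1) := Nat.mul_le_mul_left _ (by omega)
  omega

/-- Step (B): the top component is a derivative. -/
theorem coeff_Tay_top {F : MvPolynomial σ K} {β₀ : σ →₀ ℕ} (hβ₀ : β₀ ∈ box σ (p ^ e))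
    (hmax : ∀ β ∈ box σ (p ^ e), β₀.degree < β.degree → psi p e β F = 0) :
    coeff β₀ (Tay F) = (psi p e β₀ F) ^ (p ^ e) := by
  have hb := (mem_box (Qpos p e)).mp hβ₀
  have key : ∀ (u : MvPolynomial σ K) (β : σ →₀ ℕ),
      coeff β₀ (Tay (u ^ (p ^ e) * monomial β 1)) =
        u ^ (p ^ e) * coeff β₀ (Tay (monomial β (1 : K))) := by
    intro u β
    rw [map_mul, map_pow, coeff_mul, Finset.sum_eq_single_of_mem (0, β₀)
      (by rw [Finset.HasAntidiagonal.mem_antidiagonal, zero_add])]
    · congr 1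
      have := coeff_pow_smul p e (Tay u) 0
      rw [smul_zero, coeff_zero_Tay] at this
      exact this
    · intro ab hab hne
      rw [Finset.HasAntidiagonal.mem_antidiagonal] at hab
      have h0 : ab.1 ≠ 0 := by
        intro h0
        apply hne
        rw [h0, zero_add] at hab
        exact Prod.ext h0 hab
      obtain ⟨i, hi⟩ := Finsupp.ne_iff.mp h0
      have hlt : ab.1 i < p ^ e := by
        have := hb i
        rw [← hab] at this
        simp only [Finsupp.coe_add, Pi.add_apply] at this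
        omega
      rw [coeff_pow_of_not_dvd p e _ _ i, zero_mul]
      intro hdvd
      exact hi (Nat.eq_zero_of_dvd_of_lt hdvd hlt)
  conv_lhs => rw [decomp p e F, map_sum, coeff_sum]
  rw [Finset.sum_eq_single_of_mem β₀ hβ₀]
  · rw [key, (Lead.Tay_monomial β₀).2, mul_one]
  · intro β hβ hne
    rw [key]
    by_cases hd : β₀.degree < β.degree
    · rw [hmax β hβ hd, zero_pow (Qpos p e).ne', zero_mul]
    · rw [(Lead.Tay_monomial β).1, mul_zero]
      intro hle
      apply hne
      have h5 : β = β₀ + (β - β₀) := (add_tsub_cancel_of_le hle).symm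
      have h6 : (β - β₀).degree = 0 := by
        have := congrArg Finsupp.degree h5
        rw [map_add] at this
        omega
      rw [Finsupp.degree_eq_zero_iff] at h6
      rw [h6, add_zero] at h5
      exact h5

/-- orders are multiplied by `Q` under `Q`-th powers. -/
theorem mem_of_pow_mem {j : σ} {v : σ → K} {s w : ℕ} {u : MvPolynomial σ K}
    (hu : u ^ (p ^ e) ∈ (IP j v) ^ s) (hw : p ^ e * (w - 1) < s) : u ∈ (IP j v) ^ w := by
  rw [mem_IP_pow] at hu ⊢
  intro γ hγ
  rw [map_pow] at hu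
  have h1 : pd j ((p ^ e) • γ) < s := by
    rw [pd_smul]
    have h4 : p ^ e * pd j γ ≤ p ^ e * (w - 1) := Nat.mul_le_mul_left _ (by omega)
    omega
  have h2 := hu _ h1
  rw [coeff_pow_smul] at h2
  exact pow_eq_zero_iff (Qpos p e).ne' |>.mp h2

/-- Step (B), consequence. -/
theorem top_mem_IP {F : MvPolynomial σ K} {β₀ : σ →₀ ℕ} (hβ₀ : β₀ ∈ box σ (p ^ e))
    (hmax : ∀ β ∈ box σ (p ^ e), β₀.degree < β.degree → psi p e β F = 0)
    {j : σ} {v : σ → K} {s w : ℕ} (hF : F ∈ (IP j v) ^ s)
    (hw : p ^ e * (w - 1) + β₀.degree < s) : psi p e β₀ F ∈ (IP j v) ^ w := by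
  apply mem_of_pow_mem p e (s := s - β₀.degree)
  · rw [← coeff_Tay_top p e hβ₀ hmax]
    exact coeff_Tay_mem hF β₀
  · omega

end Psi

end Pool.Agent.LibHelper39
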