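import Pool.Agent.LibHelper39.AnyField

/-!
Various descriptions of the ideal of a point of projective space.
-/

set_option linter.unusedSectionVars false
set_option linter.unusedSimpArgs false
set_option linter.style.haveILetI false

namespace Pool.Agent.LibHelper39

open MvPolynomial Finset

section Points

variable {σ : Type*} [Fintype σ] [DecidableEq σ] {K : Type*} [Field K]

/-- restriction of polynomials to the line through `w` -/
noncomputable def ev (w : σ → K) : MvPolynomial σ K →+* Polynomial K :=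
  eval₂Hom (Polynomial.C : K →+* Polynomial K) (fun i => Polynomial.C (w i) * Polynomial.X)

lemma ev_gen (w : σ → K) {j : σ} (hj : w j ≠ 0) (i : σ) :
    ev w (X i - C (w i / w j) * X j) = 0 := by
  simp only [ev, map_sub, map_mul, eval₂Hom_X', coe_eval₂Hom, eval₂_C, eval₂_X, eval₂_sub,
    eval₂_mul]
  rw [← mul_assoc, ← Polynomial.C_mul, div_mul_cancel₀ _ hj, sub_self]

lemma IP_le_ker (w : σ → K) {j : σ} (hj : w j ≠ 0) :
    IP j (fun i => w i / w j) ≤ RingHom.ker (ev w) := by
  unfold IP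
  rw [Ideal.span_le]
  rintro x ⟨i, _, rfl⟩
  exact ev_gen w hj i

lemma ker_le_IP (w : σ → K) {j : σ} (hj : w j ≠ 0) :
    RingHom.ker (ev w) ≤ IP j (fun i => w i / w j) := by
  intro g hg
  set I := IP j (fun i => w i / w j) with hI
  set η : Polynomial K →+* MvPolynomial σ K ⧸ I :=
    Polynomial.eval₂RingHom ((Ideal.Quotient.mk I).comp C)
      (Ideal.Quotient.mk I (C (w j)⁻¹ * X j)) with hη
  have hX : ∀ i, Ideal.Quotient.mk I (X i) = Ideal.Quotient.mk I (C (w i / w j) * X j) := by
    intro i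
    rw [Ideal.Quotient.eq]
    by_cases hi : i = j
    · subst hi
      rw [div_self hj, C_1, one_mul, sub_self]
      exact Submodule.zero_mem _
    · exact Ideal.subset_span ⟨i, hi, rfl⟩
  have h : η.comp (ev w) = Ideal.Quotient.mk I := by
    apply MvPolynomial.ringHom_ext
    · intro r
      simp [ev, hη]
    · intro i
      rw [hX i]
      simp only [hη, ev, RingHom.comp_apply, eval₂Hom_X', map_mul, Polynomial.coe_eval₂RingHom,
        Polynomial.eval₂_C, Polynomial.eval₂_X, Polynomial.eval₂_mul]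
      rw [← mul_assoc, ← map_mul, ← C_mul, div_eq_mul_inv]
  have h1 : Ideal.Quotient.mk I g = 0 := by
    rw [← h, RingHom.comp_apply, RingHom.mem_ker.mp hg, map_zero]
  exact Ideal.Quotient.eq_zero_iff_mem.mp h1

theorem IP_eq_ker (w : σ → K) {j : σ} (hj : w j ≠ 0) :
    IP j (fun i => w i / w j) = RingHom.ker (ev w) :=
  le_antisymm (IP_le_ker w hj) (ker_le_IP w hj)

lemma ev_monomial (w : σ → K) (γ : σ →₀ ℕ) (c : K) :
    ev w (monomial γ c) = Polynomial.C (eval w (monomial γ c)) * Polynomial.X ^ γ.degree := by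
  rw [monomial_eq, map_mul, map_mul]
  simp only [ev, coe_eval₂Hom, eval₂_C, eval_C, Finsupp.prod, map_prod, map_pow, eval₂_pow,
    eval₂_X, eval_X, eval₂_prod, Finsupp.degree_apply]
  rw [Polynomial.C_mul, map_prod, mul_assoc]
  congr 1
  rw [← Finset.prod_pow_eq_pow_sum, ← Finset.prod_mul_distrib]
  apply Finset.prod_congr rfl
  intro i _
  rw [mul_pow, ← Polynomial.C_pow]

lemma ev_homogeneous (w : σ → K) {f : MvPolynomial σ K} {d : ℕ} (hf : f.IsHomogeneous d) :
    ev w f = Polynomial.C (eval w f) * Polynomial.X ^ d := by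
  have h1 : ev w f = ∑ γ ∈ f.support, ev w (monomial γ (coeff γ f)) := by
    conv_lhs => rw [f.as_sum]
    rw [map_sum]
  have h2 : eval w f = ∑ γ ∈ f.support, eval w (monomial γ (coeff γ f)) := by
    conv_lhs => rw [f.as_sum]
    rw [map_sum]
  rw [h1, h2, map_sum, Finset.sum_mul]
  apply Finset.sum_congr rfl
  intro γ hγ
  rw [ev_monomial, isHomogeneous_iff_degree'.mp hf γ (mem_support_iff.mp hγ)]

lemma gen_isHomogeneous (w : σ → K) (i j : σ) :
    (X i - C (w i / w j) * X j : MvPolynomial σ K).IsHomogeneous 1 :=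
  (isHomogeneous_X _ _).sub (isHomogeneous_C_mul_X _ _)

lemma eval_gen (w : σ → K) (i : σ) {j : σ} (hj : w j ≠ 0) :
    eval w (X i - C (w i / w j) * X j) = 0 := by
  simp [div_mul_cancel₀ _ hj]

theorem span_forms_eq (w : σ → K) {j : σ} (hj : w j ≠ 0) :
    Ideal.span {f : MvPolynomial σ K | ∃ d, f.IsHomogeneous d ∧ eval w f = 0} =
      IP j (fun i => w i / w j) := by
  apply le_antisymm
  · rw [Ideal.span_le]
    rintro f ⟨d, hd, hf⟩
    apply ker_le_IP w hj
    rw [RingHom.mem_ker, ev_homogeneous w hd, hf, map_zero, zero_mul]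
  · unfold IP
    rw [Ideal.span_le]
    rintro x ⟨i, _, rfl⟩
    exact Ideal.subset_span ⟨1, gen_isHomogeneous w i j, eval_gen w i hj⟩

theorem span_linear_eq (w : σ → K) {j : σ} (hj : w j ≠ 0) :
    Ideal.span {f : MvPolynomial σ K | f.IsHomogeneous 1 ∧ eval w f = 0} =
      IP j (fun i => w i / w j) := by
  apply le_antisymm
  · rw [← span_forms_eq w hj]
    apply Ideal.span_mono
    rintro f ⟨hd, hf⟩
    exact ⟨1, hd, hf⟩
  · unfold IP
    rw [Ideal.span_le]
    rintro x ⟨i, _, rfl⟩
    exact Ideal.subset_span ⟨gen_isHomogeneous w i j, eval_gen w i hj⟩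

theorem span_minors_eq (w : σ → K) {j : σ} (hj : w j ≠ 0) :
    Ideal.span (Set.range (fun ik : σ × σ =>
      (X ik.1 * C (w ik.2) - X ik.2 * C (w ik.1) : MvPolynomial σ K))) =
      IP j (fun i => w i / w j) := by
  apply le_antisymm
  · rw [Ideal.span_le]
    rintro x ⟨⟨i, k⟩, rfl⟩
    apply ker_le_IP w hj
    rw [RingHom.mem_ker]
    simp only [ev, map_sub, map_mul, coe_eval₂Hom, eval₂_C, eval₂_X]
    ring
  · unfold IP
    rw [Ideal.span_le]
    rintro x ⟨i, _, rfl⟩
    have h1 : (X i - C (w i / w j) * X j : MvPolynomial σ K) =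
        C (w j)⁻¹ * (X i * C (w j) - X j * C (w i)) := by
      rw [mul_sub, mul_left_comm, ← C_mul, inv_mul_cancel₀ hj, C_1, mul_one, mul_left_comm,
        ← C_mul, div_eq_mul_inv, mul_comm (w i)]
      ring
    rw [h1]
    exact Ideal.mul_mem_left _ _ (Ideal.subset_span ⟨(i, j), rfl⟩)

lemma exists_coord_ne_zero {w : σ → K} (hw : w ≠ 0) : ∃ j, w j ≠ 0 := by
  by_contra h
  push Not at h
  exact hw (funext h)

/-- there are nonzero forms in the ideal of finitely many fat points -/
lemma exists_form {ι : Type*} [Fintype ι] (j : ι → σ) (v : ι → σ → K)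
    (hcard : 2 ≤ Fintype.card σ) (t : ι → ℕ) :
    ∃ (d : ℕ) (f : MvPolynomial σ K), f ≠ 0 ∧ f.IsHomogeneous d ∧
      ∀ i, f ∈ (IP (j i) (v i)) ^ (t i) := by
  classical
  have hne : ∀ i, ∃ k, k ≠ j i := by
    intro i
    haveI : Nontrivial σ := Fintype.one_lt_card_iff_nontrivial.mp (by omega)
    exact exists_ne (j i)
  choose k hk using hne
  set ℓ : ι → MvPolynomial σ K := fun i => X (k i) - C (v i (k i)) * X (j i) with hℓ
  have hℓ0 : ∀ i, ℓ i ≠ 0 := by
    intro i h
    have h1 := congrArg (coeff (Finsupp.single (k i) 1)) h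
    simp only [hℓ, coeff_sub, coeff_C_mul, coeff_zero] at h1
    rw [coeff_X, coeff_X, if_pos rfl, if_neg] at h1
    · simp at h1
    · intro h2
      rw [Finsupp.single_left_inj one_ne_zero] at h2
      exact hk i h2.symm
  have hℓ1 : ∀ i, (ℓ i).IsHomogeneous 1 := fun i =>
    (isHomogeneous_X _ _).sub (isHomogeneous_C_mul_X _ _)
  refine ⟨∑ i, 1 * t i, ∏ i, (ℓ i) ^ (t i), ?_, ?_, ?_⟩
  · exact Finset.prod_ne_zero_iff.mpr (fun i _ => pow_ne_zero _ (hℓ0 i))
  · exact IsHomogeneous.prod _ _ _ (fun i _ => (hℓ1 i).pow _)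
  · intro i
    rw [← Finset.mul_prod_erase _ _ (Finset.mem_univ i)]
    apply Ideal.mul_mem_right
    apply Ideal.pow_mem_pow
    exact Ideal.subset_span ⟨k i, hk i, rfl⟩

end Points

end Pool.Agent.LibHelper39
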