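import Pool.Agent.LibHelper39.Core

/-!
Specialisation of a finitely generated subring of a field to characteristic `p`.
-/

set_option linter.unusedSectionVars false
set_option linter.unusedSimpArgs false
set_option linter.style.haveILetI false

namespace Pool.Agent.LibHelper39

universe u

theorem isJacobsonRing_int : IsJacobsonRing ℤ := by
  rw [isJacobsonRing_iff_prime_eq]
  intro P hP
  by_cases h : P = ⊥
  · subst h
    rw [eq_bot_iff]
    intro x hx
    rw [Ideal.mem_jacobson_bot] at hx
    have h1 := hx x
    rw [Int.isUnit_iff] at h1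
    have h2 : x = 0 := by
      rcases h1 with h1 | h1 <;> nlinarith [sq_nonneg x]
    rw [h2]
    exact Submodule.zero_mem _
  · have hmax : P.IsMaximal := Ideal.IsPrime.isMaximal hP h
    exact Ideal.jacobson_eq_self_of_isMaximal

/-- Every finitely generated subring of a field maps to an algebraically closed field of
positive characteristic. -/
theorem exists_specialization (K : Type u) [Field K] (S : Set K) (hS : S.Finite) :
    ∃ (A : Subalgebra ℤ K) (Ω : Type u) (_ : Field Ω) (_ : IsAlgClosed Ω) (p : ℕ)
      (_ : Fact p.Prime) (_ : CharP Ω p) (_ : A →+* Ω), S ⊆ A := by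
  set A := Algebra.adjoin ℤ S with hA
  haveI : Algebra.FiniteType ℤ A := .adjoin_of_finite hS
  obtain ⟨m, hm⟩ := Ideal.exists_maximal A
  letI : Field (A ⧸ m) := Ideal.Quotient.field m
  haveI : Algebra.FiniteType ℤ (A ⧸ m) :=
    Algebra.FiniteType.of_surjective (Ideal.Quotient.mkₐ ℤ m) (Ideal.Quotient.mkₐ_surjective ℤ m)
  have := isJacobsonRing_int
  haveI : Module.Finite ℤ (A ⧸ m) := finite_of_finite_type_of_isJacobsonRing ℤ (A ⧸ m)
  obtain ⟨p, hp⟩ := CharP.exists (A ⧸ m)
  have hp0 : p ≠ 0 := by
    rintro rfl
    haveI : CharZero (A ⧸ m) := CharP.charP_to_charZero (A ⧸ m)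
    have hinj : Function.Injective (algebraMap ℤ (A ⧸ m)) := by
      intro a b hab
      simpa using hab
    have : IsField ℤ :=
      isField_of_isIntegral_of_isField hinj (Field.toIsField (A ⧸ m))
    exact Int.not_isField this
  have hprime : p.Prime := (CharP.char_is_prime_or_zero (A ⧸ m) p).resolve_right hp0
  refine ⟨A, AlgebraicClosure (A ⧸ m), inferInstance, inferInstance, p, ⟨hprime⟩,
    charP_of_injective_algebraMap (algebraMap (A ⧸ m) (AlgebraicClosure (A ⧸ m))).injective p,
    (algebraMap (A ⧸ m) (AlgebraicClosure (A ⧸ m))).comp (Ideal.Quotient.mk m),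
    Algebra.subset_adjoin⟩

end Pool.Agent.LibHelper39
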