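import Pool.Agent.LibHelper39.Basic

/-!
Taylor expansion `F(x) ↦ F(x+y)` and the behaviour of ideal powers.
-/

set_option linter.unusedSectionVars false
set_option linter.unusedSimpArgs false

namespace Pool.Agent.LibHelper39

open MvPolynomial Finset

section Taylor

variable {σ : Type*} [Fintype σ] [DecidableEq σ] {R : Type*} [CommRing R]

/-- Taylor map `F(x) ↦ F(x+y)`, a polynomial in `y` over `R[x]`. -/
noncomputable def Tay : MvPolynomial σ R →+* MvPolynomial σ (MvPolynomial σ R) :=
  eval₂Hom ((C : MvPolynomial σ R →+* MvPolynomial σ (MvPolynomial σ R)).comp C)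
    (fun i => C (X i) + X i)

lemma Tay_X (i : σ) : Tay (X i : MvPolynomial σ R) = C (X i) + X i := by simp [Tay]

lemma Tay_C (a : R) : Tay (C a : MvPolynomial σ R) = C (C a) := by simp [Tay]

lemma coeff_zero_Tay (F : MvPolynomial σ R) : coeff 0 (Tay F) = F := by
  have h : (constantCoeff.comp (Tay (σ := σ) (R := R))) = RingHom.id _ := by
    apply MvPolynomial.ringHom_ext
    · intro r; simp [Tay_C]
    · intro i; simp [Tay_X]
  have := congrArg (fun f => f F) h
  simpa [constantCoeff_eq] using this

/-- filtration attached to an ideal -/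
def FI (I : Ideal R) (s : ℕ) : Ideal (MvPolynomial σ R) where
  carrier := {h | ∀ b : σ →₀ ℕ, coeff b h ∈ I ^ (s - b.degree)}
  add_mem' := by
    intro a b ha hb γ
    rw [coeff_add]
    exact Ideal.add_mem _ (ha γ) (hb γ)
  zero_mem' := by
    intro γ
    simp
  smul_mem' := by
    intro c x hx γ
    rw [smul_eq_mul, coeff_mul]
    apply Ideal.sum_mem
    intro ab hab
    rw [Finset.HasAntidiagonal.mem_antidiagonal] at hab
    apply Ideal.mul_mem_left
    refine Ideal.pow_le_pow_right ?_ (hx ab.2)
    have : ab.2.degree ≤ γ.degree := by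
      rw [← hab, map_add]; omega
    omega

lemma FI_mul_mem {I : Ideal R} {s t : ℕ} {a b : MvPolynomial σ R} (ha : a ∈ FI (σ := σ) I s)
    (hb : b ∈ FI (σ := σ) I t) : a * b ∈ FI (σ := σ) I (s + t) := by
  intro γ
  rw [coeff_mul]
  apply Ideal.sum_mem
  intro ab hab
  rw [Finset.HasAntidiagonal.mem_antidiagonal] at hab
  have h1 : coeff ab.1 a * coeff ab.2 b ∈ I ^ (s - ab.1.degree) * I ^ (t - ab.2.degree) :=
    Ideal.mul_mem_mul (ha _) (hb _)
  rw [← pow_add] at h1
  refine Ideal.pow_le_pow_right ?_ h1
  have : γ.degree = ab.1.degree + ab.2.degree := by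
    rw [← hab, map_add]
  omega

lemma Tay_mem_FI {I : Ideal (MvPolynomial σ R)} {s : ℕ} {g : MvPolynomial σ R} (hg : g ∈ I ^ s) :
    Tay g ∈ FI (σ := σ) I s := by
  induction s generalizing g with
  | zero =>
    intro b
    simp
  | succ n ih =>
    have h1 : I ^ (n + 1) ≤ (FI (σ := σ) I (n + 1)).comap Tay := by
      rw [pow_succ, Ideal.mul_le]
      intro a ha b hb
      rw [Ideal.mem_comap, map_mul]
      apply FI_mul_mem (ih ha)
      intro c
      by_cases hc : c = 0
      · subst hc
        rw [coeff_zero_Tay]
        simpa using hb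
      · have : 1 - c.degree = 0 := by
          have : c.degree ≠ 0 := by
            rwa [Ne, Finsupp.degree_eq_zero_iff]
          omega
        rw [this]
        simp
    exact h1 hg

lemma coeff_Tay_mem {I : Ideal (MvPolynomial σ R)} {s : ℕ} {g : MvPolynomial σ R}
    (hg : g ∈ I ^ s) (b : σ →₀ ℕ) : coeff b (Tay g) ∈ I ^ (s - b.degree) :=
  Tay_mem_FI hg b

/-- `H` has componentwise leading exponent `β` with coefficient one. -/
def Lead (H : MvPolynomial σ R) (β : σ →₀ ℕ) : Prop :=
  (∀ b, ¬ b ≤ β → coeff b H = 0) ∧ coeff β H = 1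

lemma Lead.one : Lead (1 : MvPolynomial σ R) 0 := by
  constructor
  · intro b hb
    rw [coeff_one, if_neg]
    rintro rfl
    exact hb le_rfl
  · simp

lemma Lead.mul {H₁ H₂ : MvPolynomial σ R} {β₁ β₂ : σ →₀ ℕ} (h₁ : Lead H₁ β₁) (h₂ : Lead H₂ β₂) :
    Lead (H₁ * H₂) (β₁ + β₂) := by
  constructor
  · intro b hb
    rw [coeff_mul]
    apply Finset.sum_eq_zero
    intro ab hab
    rw [Finset.HasAntidiagonal.mem_antidiagonal] at hab
    by_cases h : ab.1 ≤ β₁
    · have : ¬ ab.2 ≤ β₂ := fun h' => hb (hab ▸ add_le_add h h')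
      rw [h₂.1 _ this, mul_zero]
    · rw [h₁.1 _ h, zero_mul]
  · rw [coeff_mul, Finset.sum_eq_single_of_mem (β₁, β₂)
      (by rw [Finset.HasAntidiagonal.mem_antidiagonal])]
    · rw [h₁.2, h₂.2, mul_one]
    · intro ab hab hne
      rw [Finset.HasAntidiagonal.mem_antidiagonal] at hab
      by_cases h : ab.1 ≤ β₁
      · by_cases h' : ab.2 ≤ β₂
        · exfalso
          apply hne
          have e1 : ab.1 = β₁ := by
            ext i
            have := congrArg (fun f => f i) hab
            simp only [Finsupp.coe_add, Pi.add_apply] at this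
            have a1 := h i
            have a2 := h' i
            omega
          have e2 : ab.2 = β₂ := by
            ext i
            have := congrArg (fun f => f i) hab
            simp only [Finsupp.coe_add, Pi.add_apply] at this
            have a1 := h i
            have a2 := h' i
            omega
          exact Prod.ext e1 e2
        · rw [h₂.1 _ h', mul_zero]
      · rw [h₁.1 _ h, zero_mul]

lemma Lead.X_add (i : σ) (a : R) : Lead (C a + X i) (Finsupp.single i 1) := by
  constructor
  · intro b hb
    rw [coeff_add, coeff_C, coeff_X, if_neg, if_neg, add_zero]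
    · rintro rfl
      exact hb le_rfl
    · rintro rfl
      exact hb (by simp)
  · rw [coeff_add, coeff_C, coeff_X, if_neg, if_pos rfl, zero_add]
    intro h
    have := congrArg (fun f => f i) h
    simp at this

lemma Lead.Tay_monomial (β : σ →₀ ℕ) :
    Lead (Tay (monomial β (1 : R))) β := by
  induction β using Finsupp.induction_linear with
  | zero => 
    have : Tay (monomial (0 : σ →₀ ℕ) (1 : R)) = 1 := by
      rw [← one_def, map_one]
    rw [this]
    exact Lead.one
  | add f g hf hg =>
    have : (monomial (f + g) (1 : R)) = monomial f 1 * monomial g 1 := by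
      rw [monomial_mul, mul_one]
    rw [this, map_mul]
    exact hf.mul hg
  | single i n =>
    induction n with
    | zero =>
      have : Tay (monomial (Finsupp.single i 0 : σ →₀ ℕ) (1 : R)) = 1 := by
        rw [Finsupp.single_zero, ← one_def, map_one]
      rw [this, Finsupp.single_zero]
      exact Lead.one
    | succ n ih =>
      have : (monomial (Finsupp.single i (n + 1)) (1 : R)) = monomial (Finsupp.single i n) 1 * X i := by
        rw [X, monomial_mul, mul_one, ← Finsupp.single_add]
      rw [this, map_mul, Finsupp.single_add, Tay_X]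
      exact ih.mul (Lead.X_add i _)

end Taylor

end Pool.Agent.LibHelper39
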